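import Pool.Agent.Q163.K4.MK4

/-!
# The largest complete class of matroids avoiding `M(K₄)`

The class `𝒦` of the matroids without `M(K₄)`-minor is closed under principal truncation: if a
principal truncation of `M` along a flat `F` has an `M(K₄)`-minor, then a case analysis on the
number of three-point lines that are spanned by `F` finds an `M(K₄)`-minor of `M`.  A matroid
induced by a directed graph is a restriction of a matroid that arises from the direct sum of a free
matroid and the given matroid by a sequence of principal truncations.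
-/

set_option autoImplicit false

open Set Matroid

namespace Pool.Agent.Results.MP_c5be19_co.LargestClass

open Q163.K4

/-- A class of matroids. -/
abbrev MClass := ∀ α : Type, Matroid α → Prop

/-- Complete classes: classes of finite matroids, closed under isomorphism, restriction,
contraction, duality, direct sum, truncation and induction by directed graphs. -/
structure IsComplete (𝒞 : MClass) : Prop where
  finite : ∀ (α : Type) (M : Matroid α), 𝒞 α M → M.Finite
  iso : ∀ (α β : Type) (M : Matroid α) (N : Matroid β) (e : α → β), 𝒞 α M → BijOn e M.E N.E →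
    (∀ I ⊆ M.E, M.Indep I ↔ N.Indep (e '' I)) → 𝒞 β N
  restrict : ∀ (α : Type) (M : Matroid α) (X : Set α), X ⊆ M.E → 𝒞 α M → 𝒞 α (M ↾ X)
  contract : ∀ (α : Type) (M : Matroid α) (C : Set α), C ⊆ M.E → 𝒞 α M → 𝒞 α (M ／ C)
  dual : ∀ (α : Type) (M : Matroid α), 𝒞 α M → 𝒞 α M✶
  sum : ∀ (α β : Type) (M : Matroid α) (N : Matroid β), 𝒞 α M → 𝒞 β N → 𝒞 (α ⊕ β) (M.sum N)
  truncate : ∀ (α : Type) (M N : Matroid α) (k : ℕ), 𝒞 α M → N.E = M.E →
    (∀ I, N.Indep I ↔ M.Indep I ∧ I.encard ≤ k) → 𝒞 α N
  induce : ∀ (V : Type) [Finite V] (Γ : V → V → Prop) (M₀ N : Matroid V) (A : Set V), 𝒞 V M₀ →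
    N.E = A → (∀ I, N.Indep I ↔ I ⊆ A ∧ ∃ J, M₀.Indep J ∧ Joined Γ I J) → 𝒞 V N

/-- The class of the finite matroids with no minor isomorphic to `M(K₄)`. -/
def 𝒦 : MClass := fun _ M => M.Finite ∧ ∀ N, N ≤m M → ¬ IsMK4 N

lemma mem_𝒦 {α : Type} {M : Matroid α} [hM : M.Finite] : 𝒦 α M ↔ ¬ HasK M := by
  constructor
  · rintro ⟨-, h⟩ hK
    obtain ⟨N, hN, hN4⟩ := minor_of_hasK hK
    exact h N hN hN4
  · intro h
    exact ⟨hM, fun N hN hN4 => h (hasK_of_minor hN hN4)⟩

lemma 𝒦_minor {α : Type} {M N : Matroid α} (hN : N ≤m M) (h : 𝒦 α M) : 𝒦 α N := by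
  refine ⟨⟨h.1.ground_finite.subset hN.subset⟩, fun N' hN' => h.2 N' (hN'.trans hN)⟩

lemma 𝒦_iso {α β : Type} {M : Matroid α} {N : Matroid β} (e : α → β) (hM : 𝒦 α M)
    (he : BijOn e M.E N.E) (hI : ∀ I ⊆ M.E, M.Indep I ↔ N.Indep (e '' I)) : 𝒦 β N := by
  have hfM : M.Finite := hM.1
  have hfN : N.Finite := ⟨by rw [← he.image_eq]; exact M.ground_finite.image e⟩
  rw [mem_𝒦] at hM ⊢
  intro hK
  apply hM
  have hne : Nonempty α := by
    obtain ⟨C, hC, x, hx⟩ := hK
    have := (hx.mem 0 1 (by decide)).1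
    obtain ⟨a, -, -⟩ := he.surjOn this
    exact ⟨a⟩
  have hg1 : ∀ y ∈ N.E, Function.invFunOn e M.E y ∈ M.E ∧ e (Function.invFunOn e M.E y) = y :=
    fun y hy => ⟨Function.invFunOn_mem (he.surjOn hy), Function.invFunOn_eq (he.surjOn hy)⟩
  refine HasK.of_emb (M := M) (N := N) (Function.invFunOn e M.E) ?_ ?_ ?_ hK
  · intro a ha b hb hab
    rw [← (hg1 a ha).2, ← (hg1 b hb).2, hab]
  · rintro _ ⟨y, hy, rfl⟩
    exact (hg1 y hy).1
  · intro Y hY
    have hmap : N = M.map e he.injOn := by
      refine ext_indep (by simp [he.image_eq]) ?_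
      intro I hIN
      rw [map_indep_iff]
      constructor
      · intro h
        refine ⟨Function.invFunOn e M.E '' I, ?_, ?_⟩
        · rw [hI]
          · rw [image_image]
            convert h using 1
            ext z
            constructor
            · rintro ⟨w, hw, rfl⟩
              show e (Function.invFunOn e M.E w) ∈ I
              rwa [(hg1 w (hIN hw)).2]
            · intro hz
              exact ⟨z, hz, (hg1 z (hIN hz)).2⟩
          · rintro _ ⟨y, hy, rfl⟩
            exact (hg1 y (hIN hy)).1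
        · ext z
          constructor
          · intro hz
            exact ⟨_, ⟨z, hz, rfl⟩, (hg1 z (hIN hz)).2⟩
          · rintro ⟨_, ⟨w, hw, rfl⟩, rfl⟩
            rwa [(hg1 w (hIN hw)).2]
      · rintro ⟨I₀, hI₀, rfl⟩
        exact (hI I₀ hI₀.subset_ground).1 hI₀
    have hYe : Y = e '' (Function.invFunOn e M.E '' Y) := by
      ext z
      constructor
      · intro hz
        exact ⟨_, ⟨z, hz, rfl⟩, (hg1 z (hY hz)).2⟩
      · rintro ⟨_, ⟨w, hw, rfl⟩, rfl⟩
        rwa [(hg1 w (hY hw)).2]
    have hsub : Function.invFunOn e M.E '' Y ⊆ M.E := by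
      rintro _ ⟨y, hy, rfl⟩
      exact (hg1 y (hY hy)).1
    conv_lhs => rw [hYe]
    unfold H211.MC.rk
    rw [hmap, eRk_map M he.injOn hsub]

/-- The matroids without `M(K₄)`-minor form a complete class. -/
theorem complete_𝒦 : IsComplete 𝒦 where
  finite := fun α M h => h.1
  iso := fun α β M N e hM he hI => 𝒦_iso e hM he hI
  restrict := by
    intro α M X hX h
    exact 𝒦_minor ⟨∅, M.E \ X, by rw [contract_empty, delete_compl hX]⟩ h
  contract := by
    intro α M C hC h
    exact 𝒦_minor ⟨C, ∅, by simp⟩ h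
  dual := by
    intro α M h
    have hf := h.1
    have hf' : M✶.Finite := ⟨by simpa using M.ground_finite⟩
    rw [mem_𝒦] at h ⊢
    exact fun hK => h hK.of_dual
  sum := by
    intro α β M N hM hN
    have hf := hM.1
    have hf' := hN.1
    have := sum_finite M N
    rw [mem_𝒦] at hM hN ⊢
    intro hK
    rcases hK.of_sum with h | h
    · exact hM h
    · exact hN h
  truncate := by
    intro α M N k hM hE hI
    have hf := hM.1
    have hf' : N.Finite := ⟨by rw [hE]; exact M.ground_finite⟩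
    rw [mem_𝒦] at hM ⊢
    intro hK
    exact hM (HasK.of_truncation k (H211.MC.rk M M.E) M N (by omega) hE hI hK)
  induce := by
    intro V _ Γ M₀ N A hM hE hI
    have hf := hM.1
    have hf' : N.Finite := finite_of_finite N
    rw [mem_𝒦] at hM ⊢
    intro hK
    exact hM (HasK.of_induced hE hI hK)

/-- The largest complete class of matroids containing no copy of `M(K₄)` is the class of the
matroids with no `M(K₄)`-minor. -/
theorem result :
    IsComplete 𝒦 ∧ (∀ (α : Type) (M : Matroid α), IsMK4 M → ¬ 𝒦 α M) ∧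
      ∀ 𝒞 : MClass, IsComplete 𝒞 → (∀ (α : Type) (M : Matroid α), IsMK4 M → ¬ 𝒞 α M) →
        ∀ (α : Type) (M : Matroid α), 𝒞 α M → 𝒦 α M := by
  refine ⟨complete_𝒦, fun α M hM h => h.2 M IsMinor.refl hM, ?_⟩
  intro 𝒞 h𝒞 hno α M hM
  refine ⟨h𝒞.finite α M hM, ?_⟩
  intro N hN hN4
  obtain ⟨C, D, hC, hD, hCD, rfl⟩ := hN.exists_eq_contract_delete_disjoint
  apply hno α _ hN4
  rw [delete_eq_restrict]
  exact h𝒞.restrict α _ _ sdiff_subset (h𝒞.contract α M C hC hM)

end Pool.Agent.Results.MP_c5be19_co.LargestClass
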